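import Pool.Agent.Results.MP_fe632d_an.Classify

open Set MeasureTheory Function InnerProductSpace
open scoped InnerProductSpace
open Pool.Agent.H5.Torus Pool.Agent.H5.Diffuse ContinuousLinearMap

namespace Pool.Agent.Results.MP_612f91_an.Spatial

theorem spatial {H K : Type} [NormedAddCommGroup H] [InnerProductSpace ℂ H] [CompleteSpace H]
    [NormedAddCommGroup K] [InnerProductSpace ℂ K] [CompleteSpace K]
    {A : Set (H →L[ℂ] H)} {B : Set (K →L[ℂ] K)} (P : Bool → H →L[ℂ] H)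
    (p1 : ∀ x, P true x + P false x = x) (p2 : ∀ x y, ⟪P true x, P false y⟫_ℂ = 0)
    (p3 : ∀ i, ∀ a ∈ A, ∀ x, a (P i x) = P i (a x)) (hA : ∀ i x y, rankOne ℂ (P i x) (P i y) ∈ A)
    (hB : ∀ ζ, ∃ z w, ζ = z + w ∧ rankOne ℂ z z ∈ B ∧ rankOne ℂ w w ∈ B)
    (Φ : (H →L[ℂ] H) → (K →L[ℂ] K)) (hb : BijOn Φ A B)
    (ha : ∀ a ∈ A, ∀ b ∈ A, Φ (a + b) = Φ a + Φ b) (hs : ∀ c : ℂ, ∀ a ∈ A, Φ (c • a) = c • Φ a)
    (hm : ∀ a ∈ A, ∀ b ∈ A, Φ (a * b) = Φ a * Φ b) (ht : ∀ a ∈ A, Φ (star a) = star (Φ a)) :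
    ∃ u : H ≃ₗᵢ[ℂ] K, ∀ a ∈ A, ∀ ξ, Φ a (u ξ) = u (a ξ) := by
  have h00 : (0 : H →L[ℂ] H) ∈ A := by simpa using hA true 0 0
  have Φ0 : Φ 0 = 0 := by simpa using hs 0 0 h00
  have hc : ∀ a ∈ A, ∀ i ξ e z, Φ a (Φ (rankOne ℂ (P i ξ) (P i e)) z) =
      Φ (rankOne ℂ (a (P i ξ)) (P i e)) z := by
    intro a h i ξ e z
    rw [← comp_rankOne _ _ a, ← mul_def, hm _ h _ (hA _ _ _), mul_apply_eq_comp]
  have hf : ∀ i j x y e e' f f', ⟪Φ (rankOne ℂ (P i x) (P i e)) f,
      Φ (rankOne ℂ (P j y) (P j e')) f'⟫_ℂ =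
        ⟪f, Φ (rankOne ℂ (⟪P i x, P j y⟫_ℂ • P i e) (P j e')) f'⟫_ℂ := by
    intro i j x y e e' f f'
    rw [← adjoint_inner_right, ← star_eq_adjoint, ← ht _ (hA _ _ _), star_eq_adjoint,
      adjoint_rankOne, hc _ (hA _ _ _), rankOne_apply]
  have key : ∀ i, ∃ e f, ∀ x y, ⟪Φ (rankOne ℂ (P i x) (P i e)) f,
      Φ (rankOne ℂ (P i y) (P i e)) f⟫_ℂ = ⟪P i x, P i y⟫_ℂ := by
    intro i
    by_cases h : ∀ x, P i x = 0
    · exact ⟨0, 0, by simp [h]⟩
    obtain ⟨x0, hx⟩ := not_forall.1 h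
    obtain ⟨e, he⟩ : ∃ e, ‖P i e‖ = 1 := ⟨((‖P i x0‖⁻¹ : ℝ) : ℂ) • x0, by simp [norm_smul, hx]⟩
    have e0 : P i e ≠ 0 := fun h => by simp [h] at he
    obtain ⟨z, hz⟩ : ∃ z, Φ (rankOne ℂ (P i e) (P i e)) z ≠ 0 := by
      by_contra h
      exact rankOne_ne_zero e0 e0 (hb.injOn (hA i e e) h00
        ((ContinuousLinearMap.ext fun z => not_not.1 (not_exists.1 h z)).trans Φ0.symm))
    obtain ⟨f, f1, f2⟩ : ∃ f, ‖f‖ = 1 ∧ Φ (rankOne ℂ (P i e) (P i e)) f = f := by
      refine ⟨((‖Φ (rankOne ℂ (P i e) (P i e)) z‖⁻¹ : ℝ) : ℂ) •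
        Φ (rankOne ℂ (P i e) (P i e)) z, ?_, ?_⟩
      · simp [norm_smul, hz]
      · rw [map_smul, hc _ (hA i e e)]
        simp [inner_self_eq_norm_sq_to_K, he]
    refine ⟨e, f, fun x y => ?_⟩
    rw [hf, map_smul, smul_apply, hs _ _ (hA _ _ _), smul_apply, f2, inner_smul_right,
      inner_self_eq_norm_sq_to_K, f1]
    simp
  choose e f key using key
  let v : Bool → H →ₗ[ℂ] K := fun i =>
    { toFun := fun ξ => Φ (rankOne ℂ (P i ξ) (P i (e i))) (f i)
      map_add' := fun x y => by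
        rw [map_add, map_add, add_apply, ha _ (hA _ _ _) _ (hA _ _ _), add_apply]
      map_smul' := fun c x => by
        rw [map_smul, map_smul, smul_apply, hs _ _ (hA _ _ _), smul_apply, RingHom.id_apply] }
  have o1 : ∀ x y, ⟪v true x, v false y⟫_ℂ = 0 := fun x y =>
    (hf _ _ _ _ _ _ _ _).trans (by simp [p2, Φ0])
  have hv : ∀ x y, ⟪(v true + v false) x, (v true + v false) y⟫_ℂ = ⟪x, y⟫_ℂ := fun x y => by
    conv_rhs => rw [← p1 x, ← p1 y]
    simp only [LinearMap.add_apply, inner_add_left, inner_add_right, o1, p2,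
      inner_eq_zero_symm.1 (o1 _ _), inner_eq_zero_symm.1 (p2 _ _)]
    exact congrArg₂ _ (congrArg₂ _ (key true x y) rfl) (congrArg₂ _ rfl (key false x y))
  have hi : ∀ a ∈ A, ∀ ξ, Φ a ((v true + v false) ξ) = (v true + v false) (a ξ) := fun a h ξ => by
    rw [LinearMap.add_apply, LinearMap.add_apply, map_add]
    exact congrArg₂ _ ((hc a h _ _ _ _).trans (by rw [p3 _ a h]; rfl))
      ((hc a h _ _ _ _).trans (by rw [p3 _ a h]; rfl))
  have hr : ∀ z, rankOne ℂ z z ∈ B → ∃ ξ, (v true + v false) ξ = z := fun z hz => by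
    by_cases h : z = 0
    · exact ⟨0, by rw [map_zero, h]⟩
    obtain ⟨c, c1, c2⟩ := hb.surjOn hz
    obtain ⟨ξ, hξ⟩ : ∃ ξ, c ξ ≠ 0 := by
      by_contra h'
      rw [show c = 0 from ContinuousLinearMap.ext fun z => not_not.1 (not_exists.1 h' z), Φ0] at c2
      exact rankOne_ne_zero h h c2.symm
    have h1 := hi c c1 ξ
    rw [c2, rankOne_apply] at h1
    have h2 : ⟪z, (v true + v false) ξ⟫_ℂ ≠ 0 := fun h3 => hξ (by
      rw [← inner_self_eq_zero (𝕜 := ℂ), ← hv, ← h1, h3, zero_smul, inner_zero_left])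
    exact ⟨(⟪z, (v true + v false) ξ⟫_ℂ)⁻¹ • c ξ, by rw [map_smul, ← h1, inv_smul_smul₀ h2]⟩
  refine ⟨LinearIsometryEquiv.ofSurjective ((v true + v false).isometryOfInner hv) fun ζ => ?_, hi⟩
  obtain ⟨z, w, rfl, a, b⟩ := hB ζ
  obtain ⟨x, rfl⟩ := hr z a
  obtain ⟨y, rfl⟩ := hr w b
  exact ⟨x + y, map_add (v true + v false) x y⟩

section
variable {X : Type} [MeasurableSpace X] (m : Measure X)

theorem Cu_eq : Cu m = ((D' m).topologicalClosure : Set (Op m)) := by
  refine congrArg closure (Set.ext fun c => ⟨fun ⟨l, a, b⟩ => ⟨⟨l, a⟩, l, b⟩, ?_⟩)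
  rintro ⟨⟨l, hl⟩, l', hl'⟩
  exact ⟨max l l', fun ξ => (hl ξ).trans (by gcongr; exact le_max_left _ _),
    fun ξ => (hl' ξ).trans (by gcongr; exact le_max_right _ _)⟩

theorem C_mul {a b : Op m} (ha : a ∈ (D' m).topologicalClosure)
    (hb : b ∈ (D' m).topologicalClosure) : a * b ∈ (D' m).topologicalClosure :=
  map_mem_closure₂ continuous_mul ha hb fun _ h _ h' =>
    ⟨h.1.mul h'.1, by rw [star_mul]; exact h'.2.mul h.2⟩

theorem C_star {a : Op m} (ha : a ∈ (D' m).topologicalClosure) :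
    star a ∈ (D' m).topologicalClosure :=
  map_mem_closure continuous_star ha fun _ hc => ⟨hc.2, by rw [star_star]; exact hc.1⟩

noncomputable def Pm {S : Set X} (hS : MeasurableSet S) : Op m :=
  (ContinuousLinearMap.mul ℂ ℂ).holderL m ⊤ 2 2 ((memLp_top_const (1 : ℂ)).indicator hS).toLp

theorem Pm_ae {S : Set X} (hS : MeasurableSet S) (ξ : Hs m) :
    Pm m hS ξ =ᵐ[m] S.indicator ξ := by
  filter_upwards [(ContinuousLinearMap.mul ℂ ℂ).coeFn_holder (r := 2)
    ((memLp_top_const (1 : ℂ) (μ := m)).indicator hS).toLp ξ,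
    ((memLp_top_const (1 : ℂ) (μ := m)).indicator hS).coeFn_toLp] with x h1 h2
  refine h1.trans ?_
  rw [h2]
  by_cases h : x ∈ S <;> simp [h]

theorem Pm_add {S : Set X} (hS : MeasurableSet S) (ξ : Hs m) :
    Pm m hS ξ + Pm m hS.compl ξ = ξ := by
  ext1
  filter_upwards [Lp.coeFn_add (Pm m hS ξ) (Pm m hS.compl ξ), Pm_ae m hS ξ, Pm_ae m hS.compl ξ]
    with x h1 h2 h3
  rw [h1, Pi.add_apply, h2, h3, indicator_self_add_compl_apply]

theorem Pm_star {S : Set X} (hS : MeasurableSet S) (x y : Hs m) :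
    ⟪Pm m hS x, y⟫_ℂ = ⟪x, Pm m hS y⟫_ℂ := by
  rw [L2.inner_def, L2.inner_def]
  refine integral_congr_ae ?_
  filter_upwards [Pm_ae m hS x, Pm_ae m hS y] with z h1 h2
  rw [h1, h2]
  by_cases h : z ∈ S <;> simp [h]

theorem Pm_zero {S : Set X} (hS : MeasurableSet S) (y : Hs m) :
    Pm m hS (Pm m hS.compl y) = 0 := by
  refine Lp.eq_zero_iff_ae_eq_zero.2 ?_
  filter_upwards [Pm_ae m hS (Pm m hS.compl y), Pm_ae m hS.compl y] with z h1 h2
  rw [h1]
  by_cases h : z ∈ S <;> simp [h, h2]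

theorem block [StandardBorelSpace X] [SigmaFinite m] {S : Set X} (hS : MeasurableSet S)
    (h : (∀ x, m.restrict S {x} = 0) ∨ m.restrict S {x | m.restrict S {x} = 0} = 0) (x y : Hs m) :
    rankOne ℂ (Pm m hS x) (Pm m hS y) ∈ (D' m).topologicalClosure := by
  obtain ⟨R, r1, r2, r3, -⟩ := exists_R (m := m) hS (MeasurePreserving.id _) MeasurableSet.empty
    measure_empty (injOn_id _)
  have hst : star (Pm m hS) = Pm m hS := by
    rw [star_eq_adjoint, eq_comm, eq_adjoint_iff]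
    exact Pm_star m hS
  have hP : Pm m hS ∈ (D' m).topologicalClosure := by
    have : E (Pm m hS) := ⟨1, fun ξ => by
      rw [ENNReal.coe_one, one_mul]
      refine measure_mono_ae ?_
      filter_upwards [Pm_ae m hS ξ] with z hz h h1
      exact h (hz.trans (indicator_apply_eq_zero.2 fun _ => h1))⟩
    exact subset_closure ⟨this, by rw [hst]; exact this⟩
  have hE : ∀ (c : Op (m.restrict S)) n, Expands _ c n → E (adjoint R ∘L c ∘L R) :=
    fun c n h => ⟨n, fun ξ => (r2 _).trans ((h _).trans (mul_le_mul_right (r1 ξ) _))⟩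
  have h1 : ∀ x y, rankOne ℂ (adjoint R x) (adjoint R y) ∈ (D' m).topologicalClosure := by
    intro x y
    have h2 := (MP_fe632d_an.Classify.result _).2 h (rankOne ℂ x y)
      ((isCompactOperator_of_locallyCompactSpace_dom (innerSL ℂ y)).clm_comp (toSpanSingleton ℂ x))
    rw [← rankOne_comp, ← comp_rankOne, ContinuousLinearMap.comp_assoc]
    refine map_mem_closure (f := fun c : Op (m.restrict S) => adjoint R ∘L c ∘L R) (by fun_prop)
      h2 ?_
    rintro c ⟨n, c1, c2⟩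
    refine ⟨hE _ _ c1, ?_⟩
    rw [star_eq_adjoint, adjoint_comp, adjoint_comp, adjoint_adjoint,
      ContinuousLinearMap.comp_assoc]
    exact hE _ _ c2
  have h3 : ∀ y, (∀ x, rankOne ℂ (adjoint R x) y ∈ (D' m).topologicalClosure) →
      ∀ x, rankOne ℂ y (Pm m hS x) ∈ (D' m).topologicalClosure := by
    intro y h x
    let T := smulRightL ℂ _ _ (innerSL ℂ y) ∘L Pm m hS
    let K := (D' m).topologicalClosure.comap T.toLinearMap
    have hK : IsClosed (K : Set (Hs m)) := (D' m).isClosed_topologicalClosure.preimage T.continuous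
    have := hK.completeSpace_coe
    have h4 : K = ⊤ := by
      rw [← Submodule.orthogonal_eq_bot_iff, eq_bot_iff]
      intro ξ hξ
      have h5 : R ξ = 0 := by
        rw [← inner_self_eq_zero (𝕜 := ℂ), ← adjoint_inner_left]
        refine hξ _ ?_
        have := C_mul m hP (h (R ξ))
        rw [mul_def, comp_rankOne] at this
        exact this
      have h6 : Pm m hS ξ = 0 := by
        refine Lp.eq_zero_iff_ae_eq_zero.2 ?_
        filter_upwards [Pm_ae m hS ξ, (ae_restrict_iff' hS).1 (r3 ξ h5)] with z a b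
        exact a.trans (indicator_apply_eq_zero.2 b)
      rw [Submodule.mem_bot, ← inner_self_eq_zero (𝕜 := ℂ)]
      refine hξ _ ?_
      change rankOne ℂ (Pm m hS ξ) y ∈ (D' m).topologicalClosure
      rw [h6, map_zero, zero_apply]
      exact zero_mem _
    have h7 : rankOne ℂ (Pm m hS x) y ∈ (D' m).topologicalClosure :=
      (h4.ge Submodule.mem_top : x ∈ K)
    rw [← adjoint_rankOne, ← star_eq_adjoint]
    exact C_star m h7
  exact h3 _ (fun z => h3 _ (fun w => h1 w z) x) y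

theorem blocks [StandardBorelSpace X] [SigmaFinite m] : ∃ P : Bool → Op m,
    (∀ x, P true x + P false x = x) ∧ (∀ i x y, ⟪P i x, y⟫_ℂ = ⟪x, P i y⟫_ℂ) ∧
      (∀ x y, ⟪P true x, P false y⟫_ℂ = 0) ∧
        ∀ i x y, rankOne ℂ (P i x) (P i y) ∈ (D' m).topologicalClosure := by
  have hD : MeasurableSet {x | m {x} = 0} := by
    have := (Measure.countable_meas_level_set_pos (μ := m) (g := id) measurable_id).measurableSet
    convert this.compl using 1
    ext y
    simp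
  refine ⟨fun i => cond i (Pm m hD) (Pm m hD.compl), Pm_add m hD, ?_, fun x y => ?_, ?_⟩
  · rintro (_ | _)
    · exact Pm_star m hD.compl
    · exact Pm_star m hD
  · exact (Pm_star m hD _ _).trans (by
      rw [show Pm m hD (cond false (Pm m hD) (Pm m hD.compl) y) = 0 from Pm_zero m hD y,
        inner_zero_right])
  · rintro (_ | _)
    · refine block m hD.compl (Or.inr ?_)
      rw [Measure.restrict_apply' hD.compl]
      refine measure_mono_null (t := ∅) (fun z hz => hz.2 ?_) measure_empty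
      have := hz.1
      rw [mem_ofPred_eq, Measure.restrict_apply' hD.compl,
        inter_eq_left.2 (singleton_subset_iff.2 hz.2)] at this
      exact this
    · refine block m hD (Or.inl fun y => ?_)
      rw [Measure.restrict_apply' hD]
      by_cases hy : y ∈ {x | m {x} = 0}
      · exact measure_mono_null inter_subset_left hy
      · rw [singleton_inter_eq_empty.2 hy, measure_empty]

end

/-- `Φ` restricts to a star-isomorphism from `Cu m` onto `Cu n` -/
structure IsStarIso {X Y : Type} [MeasurableSpace X] [MeasurableSpace Y] (m : Measure X)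
    (n : Measure Y) (Φ : Op m → Op n) : Prop where
  bij : BijOn Φ (Cu m) (Cu n)
  add : ∀ a ∈ Cu m, ∀ b ∈ Cu m, Φ (a + b) = Φ a + Φ b
  smul : ∀ c : ℂ, ∀ a ∈ Cu m, Φ (c • a) = c • Φ a
  mul : ∀ a ∈ Cu m, ∀ b ∈ Cu m, Φ (a * b) = Φ a * Φ b
  star : ∀ a ∈ Cu m, Φ (star a) = star (Φ a)

theorem result {X Y : Type} [MeasurableSpace X] [StandardBorelSpace X] [MeasurableSpace Y]
    [StandardBorelSpace Y] (m : Measure X) (n : Measure Y) [SigmaFinite m] [SigmaFinite n]
    (Φ : Op m → Op n) (h : IsStarIso m n Φ) :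
    ∃ u : Hs m ≃ₗᵢ[ℂ] Hs n, ∀ a ∈ Cu m, ∀ ξ, Φ a (u ξ) = u (a ξ) := by
  obtain ⟨P, p1, ps, p2, p4⟩ := blocks m
  obtain ⟨Q, q1, -, -, q4⟩ := blocks n
  have hB : ∀ ζ, ∃ z w, ζ = z + w ∧ rankOne ℂ z z ∈ Cu n ∧ rankOne ℂ w w ∈ Cu n := fun ζ =>
    ⟨_, _, (q1 ζ).symm, (Cu_eq n).ge (q4 _ _ _), (Cu_eq n).ge (q4 _ _ _)⟩
  by_cases hc : ∀ a ∈ Cu m, ∀ x y, ⟪P false y, a (P true x)⟫_ℂ = 0
  · have hd : ∀ a ∈ Cu m, ∀ x y, ⟪P true y, a (P false x)⟫_ℂ = 0 := fun a ha x y => by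
      rw [← adjoint_inner_left, ← star_eq_adjoint, inner_eq_zero_symm]
      exact hc _ ((Cu_eq m).ge (C_star m ((Cu_eq m).le ha))) _ _
    refine spatial P p1 p2 (fun i a ha x => ext_inner_left ℂ fun w => ?_)
      (fun i x y => (Cu_eq m).ge (p4 i x y)) hB Φ h.bij h.add h.smul h.mul h.star
    rw [← ps]
    conv_lhs => rw [← p1 w]
    conv_rhs => rw [← p1 x]
    cases i <;> simp only [map_add, inner_add_left, inner_add_right, hc a ha, hd a ha, add_zero,
      zero_add]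
  · push Not at hc
    obtain ⟨a, ha, x0, y0, ht⟩ := hc
    have h1 : ∀ x y, rankOne ℂ (P false y) (P true x) ∈ (D' m).topologicalClosure := fun x y => by
      have := (D' m).topologicalClosure.smul_mem (⟪P false y0, a (P true x0)⟫_ℂ)⁻¹
        (C_mul m (p4 false y y0) (C_mul m ((Cu_eq m).le ha) (p4 true x0 x)))
      rwa [mul_def, mul_def, comp_rankOne, rankOne_comp_rankOne, inv_smul_smul₀ ht] at this
    refine spatial (fun i => cond i 1 0) (by simp) (by simp) (by rintro (_ | _) <;> simp) ?_ hB Φ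
      h.bij h.add h.smul h.mul h.star
    rintro (_ | _) x y <;> refine (Cu_eq m).ge ?_
    · have h0 : (0 : Op m) ∈ closure (D' m : Set (Op m)) := (D' m).topologicalClosure.zero_mem
      simpa using h0
    · change rankOne ℂ x y ∈ (D' m).topologicalClosure
      rw [← p1 x, map_add, add_apply, ← p1 y, map_add, map_add]
      refine add_mem (add_mem (p4 _ _ _) ?_) (add_mem (h1 _ _) (p4 _ _ _))
      rw [← adjoint_rankOne, ← star_eq_adjoint]
      exact C_star m (h1 _ _)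

end Pool.Agent.Results.MP_612f91_an.Spatial
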